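import Pool.Agent.Run7.h675.Main

/-!
Universal coverings and fundamental groups of closed manifolds with an integral affine structure
(in particular of the closed bases of locally trivial Lagrangian torus fibrations).
-/

set_option autoImplicit false

open Set Filter Topology Run7.h675

namespace Pool.Agent.Results.MP_7a8a58_gt.SplitCover

theorem result {n : ℕ} (hn : 1 ≤ n) {B : Type} [TopologicalSpace B] [T2Space B] [CompactSpace B]
    (𝒜 : IntAtlas n B) {X : Type} [TopologicalSpace X] [SimplyConnectedSpace X] {p : X → B}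
    (cov : IsCoveringMap p) (hs : Function.Surjective p) :
    -- all germs of integral affine functions extend to the universal covering
    (∀ x, ∀ e ∈ 𝒜.charts, p x ∈ e.source → ∀ (m : Fin n → ℤ) (c : ℝ), m ≠ 0 →
      ∃ u : X → ℝ, 𝒜.IsAffFun p u ∧ ∀ᶠ y in 𝓝 x, u y = ∑ i, (m i : ℝ) * e (p y) i + c) ∧
    -- every integral affine function is the projection of a product
    (∀ u : X → ℝ, 𝒜.IsAffFun p u →
      SimplyConnectedSpace {x : X // u x = 0} ∧
      Nonempty (ChartedSpace (EuclideanSpace ℝ (Fin (n - 1))) {x : X // u x = 0}) ∧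
      (2 ≤ n → NoncompactSpace {x : X // u x = 0}) ∧
      ∃ Φ : X ≃ₜ {x : X // u x = 0} × ℝ, ∀ x, (Φ x).2 = u x) ∧
    -- the fundamental group is one-ended, and not a free product
    (2 ≤ n → ∀ b : B, OneEnded (FundamentalGroup B b) ∧
      ∀ (ι : Type) (G : ι → Type) [∀ i, Group (G i)] (i j : ι), i ≠ j → Nontrivial (G i) →
        Nontrivial (G j) → IsEmpty (FundamentalGroup B b ≃* Monoid.CoprodI G)) := by
  obtain ⟨h1, h2, h3⟩ := 𝒜.structure_theorem hn cov hs
  exact ⟨h1, h2, fun hn2 b => ⟨h3 hn2 b, fun ι G _ i j hij hi hj => (h3 hn2 b).not_coprod hij hi hj⟩⟩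

end Pool.Agent.Results.MP_7a8a58_gt.SplitCover
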